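import Pool.Agent.Run7.h46.S.Defs

/-!
# Piece P5: a structure almost covered by small free connected cells is cellular
-/

set_option autoImplicit false

namespace Run7.h465.P5

open Filter Function Run7.h46 Run7.h46.S FirstOrder FirstOrder.Language

variable {L : FirstOrder.Language.{0, 0}} {k : ℕ}

/-- apply `f` to the index of the cells -/
noncomputable def gm (C : ℕ → Fin k → ℕ) (f : ℕ → ℕ) : ℕ → ℕ :=
  Function.extend (fun p : ℕ × Fin k => C p.1 p.2) (fun p => C (f p.1) p.2) id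

theorem gm_cell {C : ℕ → Fin k → ℕ} (hC : Injective (fun p : ℕ × Fin k => C p.1 p.2))
    (f : ℕ → ℕ) (j : ℕ) (l : Fin k) : gm C f (C j l) = C (f j) l :=
  hC.extend_apply _ _ (j, l)

theorem gm_off {C : ℕ → Fin k → ℕ} (f : ℕ → ℕ) (x : ℕ) (h : ∀ j l, C j l ≠ x) :
    gm C f x = x :=
  extend_apply' _ _ _ (by rintro ⟨p, hp⟩; exact h _ _ hp)

theorem key {C : ℕ → Fin k → ℕ} (hC : Injective (fun p : ℕ × Fin k => C p.1 p.2))
    (A : Str L ℕ) (q : Str L (Fin k ⊕ ℕ))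
    (hq : ∀ j, ∃ 𝒰 : Ultrafilter (Fin k → ℕ), FreeAt A 𝒰 (C j) ∧ ty A 𝒰 = q)
    (R : Σ n, L.Relations n) (x : Fin R.1 → ℕ) (J : Set ℕ) (hJ : ∀ p j l, x p = C j l → j ∈ J)
    (f : ℕ → ℕ) (hf : Set.InjOn f J) (j0 : ℕ) (hj0 : j0 ∈ J) (t : Fin R.1 → Fin k ⊕ ℕ)
    (ht1 : ∀ p l, x p = C j0 l → t p = Sum.inl l)
    (ht2 : ∀ p, (∀ l, x p ≠ C j0 l) → t p = Sum.inr (gm C f (x p))) :
    A R (gm C f ∘ x) ↔ q R t := by
  obtain ⟨𝒰, hU, hq⟩ := hq (f j0)
  have h1 : Sum.elim (C (f j0)) id ∘ t = gm C f ∘ x := by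
    funext p
    by_cases h : ∃ l, x p = C j0 l
    · obtain ⟨l, hl⟩ := h
      simp only [comp_apply, ht1 p l hl, Sum.elim_inl]
      rw [hl, gm_cell hC]
    · push Not at h
      simp only [comp_apply, ht2 p h, Sum.elim_inr, id]
  have h2 := hU R t (by
    intro p n hp l hl
    by_cases h : ∃ l, x p = C j0 l
    · obtain ⟨l, hl⟩ := h
      rw [ht1 p l hl] at hp
      cases hp
    · push Not at h
      rw [ht2 p h] at hp
      have hn : gm C f (x p) = n := Sum.inr.inj hp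
      by_cases hx : ∃ j l', x p = C j l'
      · obtain ⟨j, l', hx⟩ := hx
        rw [hx, gm_cell hC, ← hl] at hn
        have h3 := hC (a₁ := (f j, l')) (a₂ := (f j0, l)) hn
        have h4 : f j = f j0 := congrArg Prod.fst h3
        have h5 := hf (hJ p j l' hx) hj0 h4
        subst h5
        exact h l' hx
      · push Not at hx
        rw [gm_off f (x p) (fun j l' h => hx j l' h.symm)] at hn
        exact hx (f j0) l (by rw [hn, hl]))
  rw [h1, hq] at h2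
  exact h2

open Classical in
theorem move {C : ℕ → Fin k → ℕ} (hC : Injective (fun p : ℕ × Fin k => C p.1 p.2))
    (A : Str L ℕ) (q : Str L (Fin k ⊕ ℕ))
    (hq : ∀ j, ∃ 𝒰 : Ultrafilter (Fin k → ℕ), FreeAt A 𝒰 (C j) ∧ ty A 𝒰 = q)
    (R : Σ n, L.Relations n) (x : Fin R.1 → ℕ) (J : Set ℕ) (hJ : ∀ p j l, x p = C j l → j ∈ J)
    (f f' : ℕ → ℕ) (hf : Set.InjOn f J) (hf' : Set.InjOn f' J) (j0 : ℕ) (hj0 : j0 ∈ J)
    (hag : ∀ j, j ≠ j0 → f j = f' j) :
    A R (gm C f ∘ x) ↔ A R (gm C f' ∘ x) := by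
  have hinj : ∀ l l', C j0 l = C j0 l' → l = l' := fun l l' h =>
    congrArg Prod.snd (hC (a₁ := (j0, l)) (a₂ := (j0, l')) h)
  have ht1 : ∀ p l, x p = C j0 l →
      (if h : ∃ l, x p = C j0 l then Sum.inl h.choose else Sum.inr (gm C f (x p)) :
        Fin k ⊕ ℕ) = Sum.inl l := by
    intro p l hl
    have h : ∃ l, x p = C j0 l := ⟨l, hl⟩
    rw [dif_pos h]
    congr 1
    exact hinj _ _ (h.choose_spec.symm.trans hl)
  rw [key hC A q hq R x J hJ f hf j0 hj0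
    (fun p => if h : ∃ l, x p = C j0 l then Sum.inl h.choose else Sum.inr (gm C f (x p))) ht1
    (fun p hp => dif_neg (by push Not; exact hp)),
    key hC A q hq R x J hJ f' hf' j0 hj0
    (fun p => if h : ∃ l, x p = C j0 l then Sum.inl h.choose else Sum.inr (gm C f (x p))) ht1]
  intro p hp
  have h1 : ¬ ∃ l, x p = C j0 l := by push Not; exact hp
  rw [dif_neg h1]
  congr 1
  by_cases hx : ∃ j l', x p = C j l'
  · obtain ⟨j, l', hx⟩ := hx
    rw [hx, gm_cell hC, gm_cell hC, hag j]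
    rintro rfl
    exact hp l' hx
  · push Not at hx
    rw [gm_off f _ (fun j l' h => hx j l' h.symm), gm_off f' _ (fun j l' h => hx j l' h.symm)]

theorem gm_congr {C : ℕ → Fin k → ℕ} (hC : Injective (fun p : ℕ × Fin k => C p.1 p.2))
    {r : ℕ} (x : Fin r → ℕ) (J : Set ℕ) (hJ : ∀ p j l, x p = C j l → j ∈ J)
    (f f' : ℕ → ℕ) (h : ∀ j ∈ J, f j = f' j) : gm C f ∘ x = gm C f' ∘ x := by
  funext p
  simp only [comp_apply]
  by_cases hx : ∃ j l', x p = C j l'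
  · obtain ⟨j, l', hx⟩ := hx
    rw [hx, gm_cell hC, gm_cell hC, h j (hJ p j l' hx)]
  · push Not at hx
    rw [gm_off f _ (fun j l' h => hx j l' h.symm), gm_off f' _ (fun j l' h => hx j l' h.symm)]

theorem chain {C : ℕ → Fin k → ℕ} (hC : Injective (fun p : ℕ × Fin k => C p.1 p.2))
    (A : Str L ℕ) (q : Str L (Fin k ⊕ ℕ))
    (hq : ∀ j, ∃ 𝒰 : Ultrafilter (Fin k → ℕ), FreeAt A 𝒰 (C j) ∧ ty A 𝒰 = q)
    (R : Σ n, L.Relations n) (x : Fin R.1 → ℕ) (J : Finset ℕ)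
    (hJ : ∀ p j l, x p = C j l → j ∈ J) (f : ℕ → ℕ) (hf : Injective f) (N : ℕ)
    (hN : ∀ j ∈ J, f j < N) :
    A R (gm C f ∘ x) ↔ A R (gm C (fun j => N + j) ∘ x) := by
  have h : ∀ D : Finset ℕ, D ⊆ J →
      (A R (gm C f ∘ x) ↔ A R (gm C (fun j => if j ∈ D then N + j else f j) ∘ x)) := by
    intro D
    induction D using Finset.induction_on with
    | empty => simp
    | insert j0 D hj0 ih =>
      intro hD
      have hj0J : j0 ∈ J := hD (Finset.mem_insert_self _ _)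
      have hDJ : D ⊆ J := fun j hj => hD (Finset.mem_insert_of_mem hj)
      have hinj : ∀ D' : Finset ℕ, Set.InjOn (fun j => if j ∈ D' then N + j else f j) (J : Set ℕ) := by
        intro D' a ha b hb hab
        simp only at hab
        have h1 := hN a ha
        have h2 := hN b hb
        split_ifs at hab with h3 h4 h4
        · omega
        · omega
        · omega
        · exact hf hab
      rw [ih hDJ]
      refine move hC A q hq R x J hJ _ _ (hinj D) (hinj (insert j0 D)) j0 hj0J ?_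
      intro j hj
      simp only [Finset.mem_insert, hj, false_or]
  rw [h J subset_rfl, gm_congr hC x J hJ _ (fun j => N + j)]
  intro j hj
  exact if_pos hj

theorem auto {C : ℕ → Fin k → ℕ} (hC : Injective (fun p : ℕ × Fin k => C p.1 p.2))
    (A : Str L ℕ) (q : Str L (Fin k ⊕ ℕ))
    (hq : ∀ j, ∃ 𝒰 : Ultrafilter (Fin k → ℕ), FreeAt A 𝒰 (C j) ∧ ty A 𝒰 = q)
    (R : Σ n, L.Relations n) (x : Fin R.1 → ℕ) (f : ℕ → ℕ) (hf : Injective f) :
    A R (gm C f ∘ x) ↔ A R x := by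
  classical
  have hfin : {j | ∃ p l, x p = C j l}.Finite := by
    have h1 : {j | ∃ p l, x p = C j l} ⊆ ⋃ p, {j | ∃ l, x p = C j l} := by
      rintro j ⟨p, l, h⟩
      exact Set.mem_iUnion.mpr ⟨p, l, h⟩
    refine Set.Finite.subset (Set.finite_iUnion fun p => ?_) h1
    refine Set.Subsingleton.finite ?_
    rintro j ⟨l, h⟩ j' ⟨l', h'⟩
    exact congrArg Prod.fst (hC (a₁ := (j, l)) (a₂ := (j', l')) (h.symm.trans h'))
  set J := hfin.toFinset with hJdef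
  have hJ : ∀ p j l, x p = C j l → j ∈ J := fun p j l h => by
    rw [hJdef, Set.Finite.mem_toFinset]
    exact ⟨p, l, h⟩
  set N := (J.sup f) + (J.sup id) + 1 with hN
  have h1 := chain hC A q hq R x J hJ f hf N (fun j hj => by
    have := Finset.le_sup (f := f) hj
    omega)
  have h2 := chain hC A q hq R x J hJ id injective_id N (fun j hj => by
    have := Finset.le_sup (f := id) hj
    simp only [id] at this ⊢
    omega)
  rw [h1, ← h2]
  have h3 : gm C id ∘ x = x := by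
    funext p
    simp only [comp_apply]
    by_cases hx : ∃ j l', x p = C j l'
    · obtain ⟨j, l', hx⟩ := hx
      rw [hx, gm_cell hC]
      rfl
    · push Not at hx
      rw [gm_off id _ (fun j l' h => hx j l' h.symm)]
  rw [h3]

theorem gm_inv {C : ℕ → Fin k → ℕ} (hC : Injective (fun p : ℕ × Fin k => C p.1 p.2))
    (σ τ : ℕ → ℕ) (h : ∀ j, τ (σ j) = j) (x : ℕ) : gm C τ (gm C σ x) = x := by
  by_cases hx : ∃ j l', x = C j l'
  · obtain ⟨j, l', rfl⟩ := hx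
    rw [gm_cell hC, gm_cell hC, h]
  · push Not at hx
    rw [gm_off σ _ (fun j l' h => hx j l' h.symm), gm_off τ _ (fun j l' h => hx j l' h.symm)]

/-- the automorphism given by a permutation of the cells -/
theorem exists_auto [L.IsRelational] {C : ℕ → Fin k → ℕ}
    (hC : Injective (fun p : ℕ × Fin k => C p.1 p.2))
    (A : Str L ℕ) (q : Str L (Fin k ⊕ ℕ))
    (hq : ∀ j, ∃ 𝒰 : Ultrafilter (Fin k → ℕ), FreeAt A 𝒰 (C j) ∧ ty A 𝒰 = q)
    (σ : Equiv.Perm ℕ) :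
    ∃ g : @FirstOrder.Language.Equiv L ℕ ℕ (toS A) (toS A),
      (∀ j l, g (C j l) = C (σ j) l) ∧ ∀ x, (∀ j l, x ≠ C j l) → g x = x := by
  let _ := toS A
  refine ⟨{ toFun := gm C σ, invFun := gm C σ.symm,
            left_inv := gm_inv hC σ σ.symm (fun j => σ.symm_apply_apply j)
            right_inv := gm_inv hC σ.symm σ (fun j => σ.apply_symm_apply j)
            map_fun' := fun f => isEmptyElim f
            map_rel' := fun R x => auto hC A q hq ⟨_, R⟩ x σ σ.injective }, ?_, ?_⟩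
  · intro j l
    exact gm_cell hC σ j l
  · intro x hx
    exact gm_off σ x (fun j l h => hx j l h.symm)

/-- a cell with its label -/
def Good (A : Str L ℕ) (a : Σ k : ℕ, Str L (Fin k ⊕ ℕ)) (w : Fin a.1 → ℕ) : Prop :=
  ∃ 𝒰 : Ultrafilter (Fin a.1 → ℕ), Fr 𝒰 ∧ ConnOn A 𝒰 Set.univ ∧ Injective w ∧ FreeAt A 𝒰 w ∧
    ty A 𝒰 = a.2

theorem Good.overlap {A : Str L ℕ} (hov : Overlap A) {a b : Σ k : ℕ, Str L (Fin k ⊕ ℕ)}
    {w : Fin a.1 → ℕ} {w' : Fin b.1 → ℕ} (h : Good A a w) (h' : Good A b w')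
    (hm : ∃ x y, w x = w' y) : Set.range w = Set.range w' := by
  obtain ⟨𝒰, h1, h2, h3, h4, -⟩ := h
  obtain ⟨𝒰', h1', h2', h3', h4', -⟩ := h'
  exact hov _ _ 𝒰 𝒰' w w' h1 h1' h2 h2' h3 h3' h4 h4' hm

theorem Good.congr {A : Str L ℕ} {a b : Σ k : ℕ, Str L (Fin k ⊕ ℕ)} {w : Fin a.1 → ℕ}
    (h : Good A a w) (hab : a = b) : ∃ w' : Fin b.1 → ℕ, Good A b w' ∧
      Set.range w' = Set.range w := by
  subst hab
  exact ⟨w, h, rfl⟩

/-- enumeration of an infinite set -/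
theorem exists_enum (T : Set ℕ) (hT : T.Infinite) :
    ∃ e : ℕ → ℕ, Injective e ∧ Set.range e = T := by
  classical
  have : Infinite T := hT.to_subtype
  have e := Nat.Subtype.orderIsoOfNat T
  refine ⟨fun n => (e n : ℕ), fun a b h => e.injective (Subtype.ext h), ?_⟩
  ext x
  constructor
  · rintro ⟨n, rfl⟩
    exact (e n).2
  · intro hx
    exact ⟨e.symm ⟨x, hx⟩, by simp⟩

theorem labels_finite (A : Str L ℕ) (K : ℕ) (hfin : ∀ k ≤ K, (Ty (Fin k) A).Finite) :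
    {a : Σ k : ℕ, Str L (Fin k ⊕ ℕ) | a.1 ≤ K ∧ a.2 ∈ Ty (Fin a.1) A}.Finite := by
  have h : {a : Σ k : ℕ, Str L (Fin k ⊕ ℕ) | a.1 ≤ K ∧ a.2 ∈ Ty (Fin a.1) A} ⊆
      ⋃ k ∈ Set.Iic K, (Sigma.mk k) '' (Ty (Fin k) A) := by
    rintro ⟨k, q⟩ ⟨hk, hq⟩
    simp only [Set.mem_iUnion]
    exact ⟨k, hk, q, hq, rfl⟩
  refine Set.Finite.subset ((Set.finite_Iic K).biUnion fun k hk => ?_) h
  exact (hfin k hk).image _

theorem main_P5 : StP5 := by
  classical
  intro L _ _ A K hfin hov ⟨E, hE⟩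
  have h0 : ∀ n, ∃ (a : Σ k : ℕ, Str L (Fin k ⊕ ℕ)) (w : Fin a.1 → ℕ),
      n ∉ E → a.1 ≤ K ∧ a.2 ∈ Ty (Fin a.1) A ∧ Good A a w ∧ n ∈ Set.range w := by
    intro n
    by_cases hn : n ∈ E
    · exact ⟨⟨0, fun _ _ => True⟩, Fin.elim0, fun h => absurd hn h⟩
    · obtain ⟨k, hk, 𝒰, w, h1, h2, h3, h4, h5⟩ := hE n hn
      exact ⟨⟨k, ty A 𝒰⟩, w, fun _ => ⟨hk, ⟨𝒰, h1, rfl⟩, ⟨𝒰, h1, h2, h3, h4, rfl⟩, h5⟩⟩
  choose lab W hW using h0
  set rep : ℕ → ℕ := fun n => sInf {m | m ∉ E ∧ Set.range (W m) = Set.range (W n)} with hrep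
  have hrep1 : ∀ n, n ∉ E → rep n ∉ E ∧ Set.range (W (rep n)) = Set.range (W n) := by
    intro n hn
    exact Nat.sInf_mem (s := {m | m ∉ E ∧ Set.range (W m) = Set.range (W n)}) ⟨n, hn, rfl⟩
  have hrep2 : ∀ m n, Set.range (W m) = Set.range (W n) → rep m = rep n := by
    intro m n h
    simp only [hrep, h]
  set Rp : Set ℕ := {m | m ∉ E ∧ rep m = m} with hRp
  have hdisj : ∀ m ∈ Rp, ∀ m' ∈ Rp, (∃ x y, W m x = W m' y) → m = m' := by
    intro m hm m' hm' h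
    have h1 := (hW m hm.1).2.2.1.overlap hov (hW m' hm'.1).2.2.1 h
    rw [← hm.2, ← hm'.2]
    exact hrep2 m m' h1
  have hcov : ∀ n, n ∉ E → ∃ m ∈ Rp, n ∈ Set.range (W m) := by
    intro n hn
    obtain ⟨h1, h2⟩ := hrep1 n hn
    refine ⟨rep n, ⟨h1, hrep2 _ _ h2⟩, ?_⟩
    rw [h2]
    exact (hW n hn).2.2.2
  set Λ : Set (Σ k : ℕ, Str L (Fin k ⊕ ℕ)) := {a | a.1 ≤ K ∧ a.2 ∈ Ty (Fin a.1) A} with hΛ
  have hΛf : Λ.Finite := labels_finite A K hfin
  have hlab : ∀ m ∈ Rp, lab m ∈ Λ := fun m hm => ⟨(hW m hm.1).1, (hW m hm.1).2.1⟩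
  set Λi : Set (Σ k : ℕ, Str L (Fin k ⊕ ℕ)) :=
    {a | a ∈ Λ ∧ {m | m ∈ Rp ∧ lab m = a}.Infinite} with hΛi
  have hΛif : Λi.Finite := hΛf.subset fun a ha => ha.1
  have : Finite Λi := hΛif
  obtain ⟨n, ⟨φ⟩⟩ := Finite.exists_equiv_fin Λi
  have hen : ∀ i : Fin n, ∃ e : ℕ → ℕ, Injective e ∧
      Set.range e = {m | m ∈ Rp ∧ lab m = (φ.symm i : Σ k : ℕ, Str L (Fin k ⊕ ℕ))} :=
    fun i => exists_enum _ (φ.symm i).2.2
  choose e he1 he2 using hen
  have he3 : ∀ i j, e i j ∈ Rp ∧ lab (e i j) = (φ.symm i : Σ k : ℕ, Str L (Fin k ⊕ ℕ)) := by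
    intro i j
    have : e i j ∈ Set.range (e i) := ⟨j, rfl⟩
    rw [he2] at this
    exact this
  have hc : ∀ (i : Fin n) (j : ℕ), ∃ w : Fin (φ.symm i : Σ k : ℕ, Str L (Fin k ⊕ ℕ)).1 → ℕ,
      Good A (φ.symm i : Σ k : ℕ, Str L (Fin k ⊕ ℕ)) w ∧ Set.range w = Set.range (W (e i j)) :=
    fun i j => (hW (e i j) (he3 i j).1.1).2.2.1.congr (he3 i j).2
  choose c hc1 hc2 using hc
  have hinj : ∀ i j l i' j' l', c i j l = c i' j' l' → e i j = e i' j' := by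
    intro i j l i' j' l' h
    apply hdisj _ (he3 i j).1 _ (he3 i' j').1
    have h1 : c i j l ∈ Set.range (W (e i j)) := by
      rw [← hc2]
      exact ⟨l, rfl⟩
    have h2 : c i' j' l' ∈ Set.range (W (e i' j')) := by
      rw [← hc2]
      exact ⟨l', rfl⟩
    obtain ⟨x, hx⟩ := h1
    obtain ⟨y, hy⟩ := h2
    exact ⟨x, y, by rw [hx, hy, h]⟩
  have hcinj : Injective (fun p : (Σ i : Fin n,
      ℕ × Fin (φ.symm i : Σ k : ℕ, Str L (Fin k ⊕ ℕ)).1) => c p.1 p.2.1 p.2.2) := by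
    rintro ⟨i, j, l⟩ ⟨i', j', l'⟩ h
    have h1 := hinj i j l i' j' l' h
    have h2 : i = i' := by
      have := (he3 i j).2
      rw [h1, (he3 i' j').2] at this
      exact φ.symm.injective (Subtype.ext this.symm)
    subst h2
    have h3 := he1 i h1
    subst h3
    obtain ⟨_, _, _, h4, _⟩ := hc1 i j
    have h5 := h4 h
    subst h5
    rfl
  refine ⟨n, fun i => (φ.symm i : Σ k : ℕ, Str L (Fin k ⊕ ℕ)).1, {x | ∀ i j l, c i j l ≠ x}, c,
    ?_, ?_, hcinj, ?_, ?_⟩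
  · have h1 : {x | ∀ i j l, c i j l ≠ x} ⊆
        (E : Set ℕ) ∪ ⋃ a ∈ Λ \ Λi, ⋃ m ∈ {m | m ∈ Rp ∧ lab m = a}, Set.range (W m) := by
      intro x hx
      by_cases hxE : x ∈ E
      · exact Or.inl hxE
      · right
        obtain ⟨m, hm, hxm⟩ := hcov x hxE
        simp only [Set.mem_iUnion]
        refine ⟨lab m, ⟨hlab m hm, fun hi => ?_⟩, m, ⟨hm, rfl⟩, hxm⟩
        have h2 : m ∈ Set.range (e (φ ⟨lab m, hi⟩)) := by
          rw [he2]
          exact ⟨hm, by rw [Equiv.symm_apply_apply]⟩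
        obtain ⟨j, hj⟩ := h2
        rw [← hj, ← hc2] at hxm
        obtain ⟨l, hl⟩ := hxm
        exact hx _ _ _ hl
    refine Set.Finite.subset (Set.Finite.union E.finite_toSet ?_) h1
    refine (hΛf.subset Set.sdiff_subset).biUnion fun a ha => ?_
    have h2 : {m | m ∈ Rp ∧ lab m = a}.Finite := by
      by_contra h
      exact ha.2 ⟨ha.1, h⟩
    exact h2.biUnion fun m _ => Set.finite_range _
  · intro i j l h
    exact h i j l rfl
  · intro x
    by_cases h : ∃ i j l, c i j l = x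
    · obtain ⟨i, j, l, h⟩ := h
      exact Or.inr ⟨i, j, l, h.symm⟩
    · push Not at h
      exact Or.inl h
  · intro i σ
    have hCi : Injective (fun p : ℕ × Fin (φ.symm i : Σ k : ℕ, Str L (Fin k ⊕ ℕ)).1 =>
        c i p.1 p.2) := by
      rintro ⟨j, l⟩ ⟨j', l'⟩ h
      have := hcinj (a₁ := ⟨i, j, l⟩) (a₂ := ⟨i, j', l'⟩) h
      simpa using this
    exact exists_auto hCi A (φ.symm i : Σ k : ℕ, Str L (Fin k ⊕ ℕ)).2
      (fun j => by
        obtain ⟨𝒰, _, _, _, h4, h5⟩ := hc1 i j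
        exact ⟨𝒰, h4, h5⟩) σ

end Run7.h465.P5
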